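import Mathlib
import Pool.Agent.H31.QInt

set_option autoImplicit false
open Pool.Agent.H31.QInt

namespace Pool.Agent.Results.MP_12a8d1_co.Identities

/-- p = p0 + u and q = q0 + v in the power series ring in u, v over the complex numbers. -/
noncomputable def sh (c : ℂ) (i : Fin 2) : MvPowerSeries (Fin 2) ℂ :=
  MvPowerSeries.C c + MvPowerSeries.X i

/-- The indeterminate p, as a constant power series in v with coefficients polynomials in p. -/
noncomputable def P : PowerSeries (Polynomial ℂ) := PowerSeries.C Polynomial.X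

/-- q = q0 + v. -/
noncomputable def Q (c : ℂ) : PowerSeries (Polynomial ℂ) :=
  PowerSeries.C (Polynomial.C c) + PowerSeries.X

theorem result :
    (∀ (k : ℕ) (p0 q0 : ℂ), 1 ≤ k → p0 ^ k = 1 → q0 ^ k = 1 →
      (∀ d, {n | MvPowerSeries.coeff d (poch (sh p0 0)⁻¹ (sh q0 1)⁻¹ n) ≠ 0}.Finite) →
      (∀ d, {n | MvPowerSeries.coeff d ((sh p0 0 * (sh q0 1)⁻¹) ^ (n + 1) *
        poch (sh q0 1)⁻¹ (sh q0 1)⁻¹ n) ≠ 0}.Finite) →
      ∀ d, ∑ᶠ n, MvPowerSeries.coeff d (poch (sh p0 0)⁻¹ (sh q0 1)⁻¹ n) =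
        ∑ᶠ n, MvPowerSeries.coeff d ((sh p0 0 * (sh q0 1)⁻¹) ^ (n + 1) *
          poch (sh q0 1)⁻¹ (sh q0 1)⁻¹ n)) ∧
    ∀ (k : ℕ) (q0 : ℂ), 1 ≤ k → q0 ^ k = 1 → Q q0 * Ring.inverse (Q q0) = 1 ∧ ∀ j : ℕ,
      {n | PowerSeries.coeff j (P * Q q0 ^ n * poch P (Q q0) n * poch (Q q0) (Q q0) n) ≠ 0}.Finite ∧
      {n | PowerSeries.coeff j ((P * Ring.inverse (Q q0)) ^ (n + 1) *
        poch (Ring.inverse (Q q0)) (Ring.inverse (Q q0)) n) ≠ 0}.Finite ∧
      ∑ᶠ n, PowerSeries.coeff j (P * Q q0 ^ n * poch P (Q q0) n * poch (Q q0) (Q q0) n) =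
        ∑ᶠ n, PowerSeries.coeff j ((P * Ring.inverse (Q q0)) ^ (n + 1) *
          poch (Ring.inverse (Q q0)) (Ring.inverse (Q q0)) n) := by
  have nz : ∀ (k : ℕ) (c : ℂ), 1 ≤ k → c ^ k = 1 → c ≠ 0 := by
    rintro k c hk h rfl
    rw [zero_pow (by omega)] at h; exact zero_ne_one h
  refine ⟨fun k p0 q0 hk hp hq => Q1 _ (sh q0 1) _ _ ?_ ?_, fun k q0 hk hq => ?_⟩
  · exact MvPowerSeries.mul_inv_cancel _ (by simpa [sh] using nz k p0 hk hp)
  · exact MvPowerSeries.mul_inv_cancel _ (by simpa [sh] using nz k q0 hk hq)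
  · have h : Q q0 * Ring.inverse (Q q0) = 1 := Ring.mul_inverse_cancel _
      (PowerSeries.isUnit_iff_constantCoeff.mpr (by
        simpa [Q] using (nz k q0 hk hq).isUnit.map Polynomial.C))
    exact ⟨h, Q2 _ _ _ h k hk (by simp [Q, ← map_pow, hq])⟩

end Pool.Agent.Results.MP_12a8d1_co.Identities
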